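import Pool.Agent.H58.JU.Targets

/-! MP_6a7a6f_gt, UMX: at most one point of maximum. -/

set_option autoImplicit false

namespace Pool.Agent.H89.JU

open Pool.Agent.H58.JU Pool.Agent.H59 Pool.Agent.H48.FR Pool.Agent.H58.FL
open scoped RealInnerProductSpace Quaternion

lemma dbl {N : ℕ} (t : Fin N → ℝ) (o : Fin N → Fin N → ℝ) (ht : ∑ i, t i = 1) (a b c : ℝ) :
    ∑ i, ∑ j, t i * t j * (a * o i j ^ 2 + b * o i j + c) =
      a * (∑ i, ∑ j, t i * t j * o i j ^ 2) + b * (∑ i, ∑ j, t i * t j * o i j) + c := by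
  have hT : ∑ i, ∑ j, t i * t j = 1 := by
    rw [← Finset.sum_mul_sum, ht, one_mul]
  have h1 : c = c * ∑ i, ∑ j, t i * t j := by rw [hT, mul_one]
  conv_rhs => rw [h1]
  rw [Finset.mul_sum, Finset.mul_sum, Finset.mul_sum, ← Finset.sum_add_distrib,
    ← Finset.sum_add_distrib]
  refine Finset.sum_congr rfl fun i _ => ?_
  rw [Finset.mul_sum, Finset.mul_sum, Finset.mul_sum, ← Finset.sum_add_distrib,
    ← Finset.sum_add_distrib]
  refine Finset.sum_congr rfl fun j _ => ?_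
  ring

lemma ov_gt {M : Type} [MetricSpace M] (d : ℝ) (hd : 4 ≤ d) (x y : M)
    (h : dist x y < Real.arccos (-(1 / d)) / 2) : (d - 1) / (2 * d) < ov x y := by
  have hd0 : 0 < d := by linarith
  have h1 : 1 / d ≤ 1 / 4 := one_div_le_one_div_of_le (by norm_num) hd
  have h1' : 0 < 1 / d := by positivity
  have h2 : Real.cos (Real.arccos (-(1 / d))) < Real.cos (2 * dist x y) :=
    Real.cos_lt_cos_of_nonneg_of_le_pi (by positivity) (Real.arccos_le_pi _) (by linarith)
  rw [Real.cos_arccos (by linarith) (by linarith)] at h2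
  unfold ov
  rw [Real.cos_sq]
  have h3 : (d - 1) / (2 * d) = 1 / 2 - (1 / d) / 2 := by field_simp
  rw [h3]
  linarith

theorem pf_UMX (hLAM : T_LAM) (hNRM : T_NRM) (hSCH : T_SCH) (hNUM : Pool.Agent.H58.JU.T_NUM) : T_UMX := by
  intro M W _ _ _ _ hdiam hline hd N t x hW hdist c c' hc hc'
  by_contra hne
  obtain ⟨L⟩ := hline c c' hne
  obtain ⟨ht0, ht1⟩ := hW
  set d : ℝ := (Module.finrank ℝ W : ℝ) with hdd
  have hd4 : (4 : ℝ) ≤ d := by
    rw [hdd]
    exact_mod_cast hd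
  set G0 : ℝ := ∑ i, t i * L.p (x i) with hG0
  have hG00 : 0 ≤ G0 := Finset.sum_nonneg fun i _ => mul_nonneg (ht0 i) (L.p_mem _).1
  have hG01 : G0 ≤ 1 := by
    rw [hG0, ← ht1]
    refine Finset.sum_le_sum fun i _ => ?_
    have := mul_le_mul_of_nonneg_left (L.p_mem (x i)).2 (ht0 i)
    linarith
  have hlam : ∀ y, L.p y = 1 → Fs t x y = G0 / 2 := hLAM M W c c' L N t x hdiam hne hc hc'
  have hmax : ∀ u, Fs t x u ≤ G0 / 2 := by
    intro u
    have h1 := hc u
    rw [hlam c L.p_left] at h1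
    exact h1
  have hnrm := hNRM M W c c' L N t x (G0 / 2) ⟨ht0, ht1⟩ hlam hmax
  set o : Fin N → Fin N → ℝ := fun i j => ov (x i) (x j) with ho
  set s : ℝ := ∑ i, ∑ j, t i * t j * o i j with hs
  set Q : ℝ := ∑ i, ∑ j, t i * t j * o i j ^ 2 with hQ
  have hsF : s = ∑ i, t i * Fs t x (x i) := by
    rw [hs]
    refine Finset.sum_congr rfl fun i _ => ?_
    unfold Fs
    rw [Finset.mul_sum]
    refine Finset.sum_congr rfl fun j _ => ?_
    simp only [ho]
    ring
  have hs1 : s ≤ G0 / 2 := by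
    rw [hsF]
    calc ∑ i, t i * Fs t x (x i) ≤ ∑ i, t i * (G0 / 2) :=
          Finset.sum_le_sum fun i _ => mul_le_mul_of_nonneg_left (hmax _) (ht0 i)
      _ = G0 / 2 := by rw [← Finset.sum_mul, ht1, one_mul]
  have hs2 : s ≤ G0 * (G0 / 2) + (1 - G0) * (1 - G0) := by
    rw [hsF]
    calc ∑ i, t i * Fs t x (x i)
        ≤ ∑ i, t i * (L.p (x i) * (G0 / 2) + (1 - L.p (x i)) * (1 - G0)) :=
          Finset.sum_le_sum fun i _ => mul_le_mul_of_nonneg_left (hnrm _) (ht0 i)
      _ = ∑ i, ((t i * L.p (x i)) * (G0 / 2 - (1 - G0)) + t i * (1 - G0)) := by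
          refine Finset.sum_congr rfl fun i _ => ?_
          ring
      _ = G0 * (G0 / 2 - (1 - G0)) + 1 * (1 - G0) := by
          rw [Finset.sum_add_distrib, ← Finset.sum_mul, ← Finset.sum_mul, ht1]
      _ = _ := by ring
  have hQ1 : s ^ 2 ≤ Q := by
    have h1 : 0 ≤ ∑ i, ∑ j, t i * t j * (1 * o i j ^ 2 + (-(2 * s)) * o i j + s ^ 2) := by
      refine Finset.sum_nonneg fun i _ => Finset.sum_nonneg fun j _ => ?_
      have h2 : 1 * o i j ^ 2 + (-(2 * s)) * o i j + s ^ 2 = (o i j - s) ^ 2 := by ring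
      rw [h2]
      exact mul_nonneg (mul_nonneg (ht0 i) (ht0 j)) (sq_nonneg _)
    rw [dbl t o ht1] at h1
    nlinarith
  have hQ2 : G0 ^ 4 * ((d + 1) / (4 * d)) ≤ Q :=
    hSCH M W c c' L N t x ⟨ht0, ht1⟩ (by omega)
  have hnum := hNUM d (1 - G0) s Q hd4 (by linarith) (by linarith) (by linarith)
    (by
      have e : (1 - (1 - G0)) * ((1 - (1 - G0)) / 2) + (1 - G0) * (1 - G0) =
          G0 * (G0 / 2) + (1 - G0) * (1 - G0) := by ring
      rw [e]
      exact hs2) hQ1
    (by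
      have e : 1 - (1 - G0) = G0 := by ring
      rw [e]
      exact hQ2)
  set k : ℝ := (d - 1) / (2 * d) with hk
  have hle : ∑ i, ∑ j, t i * t j * ((1 - o i j) * (o i j - k)) ≤ 0 := by
    have h1 : ∑ i, ∑ j, t i * t j * ((1 - o i j) * (o i j - k)) =
        ∑ i, ∑ j, t i * t j * ((-1) * o i j ^ 2 + (1 + k) * o i j + (-k)) := by
      refine Finset.sum_congr rfl fun i _ => Finset.sum_congr rfl fun j _ => ?_
      ring
    rw [h1, dbl t o ht1]
    linarith
  have hterm : ∀ i j, 0 ≤ t i * t j * ((1 - o i j) * (o i j - k)) := by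
    intro i j
    rcases (ht0 i).eq_or_lt with h1 | h1
    · rw [← h1]
      simp
    rcases (ht0 j).eq_or_lt with h2 | h2
    · rw [← h2]
      simp
    have h3 : k < o i j := ov_gt d hd4 _ _ (hdist i j h1 h2)
    have h4 : o i j ≤ 1 := Real.cos_sq_le_one _
    exact mul_nonneg (mul_nonneg h1.le h2.le) (mul_nonneg (by linarith) (by linarith))
  have hzero : ∀ i j, t i * t j * ((1 - o i j) * (o i j - k)) = 0 := by
    intro i j
    have h1 : ∑ i, ∑ j, t i * t j * ((1 - o i j) * (o i j - k)) = 0 :=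
      le_antisymm hle (Finset.sum_nonneg fun i _ => Finset.sum_nonneg fun j _ => hterm i j)
    have h2 := (Finset.sum_eq_zero_iff_of_nonneg fun i _ =>
      Finset.sum_nonneg fun j _ => hterm i j).1 h1 i (Finset.mem_univ i)
    exact (Finset.sum_eq_zero_iff_of_nonneg fun j _ => hterm i j).1 h2 j (Finset.mem_univ j)
  have hone : ∀ i j, 0 < t i → 0 < t j → o i j = 1 := by
    intro i j h1 h2
    have h3 : k < o i j := ov_gt d hd4 _ _ (hdist i j h1 h2)
    have h4 := hzero i j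
    rcases mul_eq_zero.1 h4 with h5 | h5
    · exact absurd h5 (mul_pos h1 h2).ne'
    · rcases mul_eq_zero.1 h5 with h6 | h6
      · linarith
      · linarith
  obtain ⟨i, hi⟩ : ∃ i, 0 < t i := by
    by_contra hcon
    push Not at hcon
    have h1 : ∑ i, t i ≤ 0 := Finset.sum_nonpos fun i _ => hcon i
    rw [ht1] at h1
    linarith
  have hF1 : Fs t x (x i) = 1 := by
    unfold Fs
    rw [← ht1]
    refine Finset.sum_congr rfl fun j _ => ?_
    rcases (ht0 j).eq_or_lt with h2 | h2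
    · rw [← h2, zero_mul]
    · have h3 : ov (x i) (x j) = 1 := hone i j hi h2
      rw [h3, mul_one]
  have := hmax (x i)
  rw [hF1] at this
  linarith

end Pool.Agent.H89.JU
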